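import Mathlib

/-!
# Divided differences of a homogeneous polynomial along a line
-/

set_option autoImplicit false

open Polynomial

namespace Pool.Agent.Helper14.HR

variable {ι : Type*}

/-- The restriction of `f` to the line `y + t lam`. -/
noncomputable def lineP (f : MvPolynomial ι ℝ) (y lam : ι → ℝ) : ℝ[X] :=
  MvPolynomial.aeval (fun i => C (y i) + C (lam i) * X) f

theorem eval_lineP (f : MvPolynomial ι ℝ) (y lam : ι → ℝ) (t : ℝ) :
    (lineP f y lam).eval t = MvPolynomial.eval (fun i => y i + t * lam i) f := by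
  unfold lineP
  have h := MvPolynomial.aeval_def (R := ℝ) (S₁ := ℝ[X]) (fun i => C (y i) + C (lam i) * X) f
  have e : Polynomial.evalRingHom t (MvPolynomial.aeval
      (fun i => C (y i) + C (lam i) * X) f) =
      MvPolynomial.eval₂ ((Polynomial.evalRingHom t).comp (algebraMap ℝ ℝ[X]))
        (fun i => Polynomial.evalRingHom t (C (y i) + C (lam i) * X)) f := by
    rw [h, MvPolynomial.hom_eval₂]
  rw [Polynomial.coe_evalRingHom] at e
  rw [e]
  unfold MvPolynomial.eval
  rw [MvPolynomial.coe_eval₂Hom]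
  congr 1
  · ext x
    simp
  · funext i
    simp
    ring

theorem lineP_monomial (e : ι →₀ ℕ) (a : ℝ) (y lam : ι → ℝ) :
    lineP (MvPolynomial.monomial e a) y lam =
      C a * ∏ i ∈ e.support, (C (y i) + C (lam i) * X) ^ e i := by
  unfold lineP
  rw [MvPolynomial.aeval_monomial, Finsupp.prod]
  rfl

theorem natDegree_lin_le (y lam : ι → ℝ) (e : ι →₀ ℕ) (i : ι) :
    ((C (y i) + C (lam i) * X : ℝ[X]) ^ e i).natDegree ≤ e i := by
  refine (Polynomial.natDegree_pow_le).trans ?_
  have : (C (y i) + C (lam i) * X : ℝ[X]).natDegree ≤ 1 := by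
    compute_degree
  calc e i * (C (y i) + C (lam i) * X : ℝ[X]).natDegree ≤ e i * 1 := Nat.mul_le_mul_left _ this
    _ = e i := Nat.mul_one _

theorem coeff_prod_top (s : Finset ι) (f : ι → ℝ[X]) (n : ι → ℕ)
    (h : ∀ i ∈ s, (f i).natDegree ≤ n i) :
    (∏ i ∈ s, f i).coeff (∑ i ∈ s, n i) = ∏ i ∈ s, (f i).coeff (n i) := by
  classical
  induction s using Finset.induction_on with
  | empty => simp
  | insert a s ha ih =>
    rw [Finset.prod_insert ha, Finset.sum_insert ha, Finset.prod_insert ha,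
      Polynomial.coeff_mul_add_eq_of_natDegree_le (h a (Finset.mem_insert_self a s)),
      ih fun i hi => h i (Finset.mem_insert_of_mem hi)]
    refine (Polynomial.natDegree_prod_le _ _).trans (Finset.sum_le_sum fun i hi => ?_)
    exact h i (Finset.mem_insert_of_mem hi)

theorem lineP_monomial_top (e : ι →₀ ℕ) (a : ℝ) (y lam : ι → ℝ) (m : ℕ) (he : e.degree = m) :
    (lineP (MvPolynomial.monomial e a) y lam).natDegree ≤ m ∧
      (lineP (MvPolynomial.monomial e a) y lam).coeff m =
        MvPolynomial.eval lam (MvPolynomial.monomial e a) := by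
  have hsum : ∑ i ∈ e.support, e i = m := he
  constructor
  · rw [lineP_monomial]
    refine (Polynomial.natDegree_C_mul_le _ _).trans ?_
    refine (Polynomial.natDegree_prod_le _ _).trans ?_
    rw [← hsum]
    exact Finset.sum_le_sum fun i _ => natDegree_lin_le y lam e i
  · rw [lineP_monomial, Polynomial.coeff_C_mul, MvPolynomial.eval_monomial, Finsupp.prod]
    congr 1
    rw [← hsum]
    rw [coeff_prod_top e.support (fun i => (C (y i) + C (lam i) * X : ℝ[X]) ^ e i) (fun i => e i)
      (fun i _ => natDegree_lin_le y lam e i)]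
    refine Finset.prod_congr rfl fun i _ => ?_
    have h1 : (C (y i) + C (lam i) * X : ℝ[X]).natDegree ≤ 1 := by compute_degree
    have h2 := Polynomial.coeff_pow_of_natDegree_le h1 (m := e i)
    rw [mul_one] at h2
    rw [h2]
    simp

theorem lineP_top (f : MvPolynomial ι ℝ) (y lam : ι → ℝ) (m : ℕ) (hf : f.IsHomogeneous m) :
    (lineP f y lam).natDegree ≤ m ∧ (lineP f y lam).coeff m = MvPolynomial.eval lam f := by
  have e : lineP f y lam = ∑ v ∈ f.support,
      lineP (MvPolynomial.monomial v (f.coeff v)) y lam := by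
    conv_lhs => rw [f.as_sum]
    unfold lineP
    rw [map_sum]
  have hd : ∀ v ∈ f.support, v.degree = m := by
    intro v hv
    have := hf (MvPolynomial.mem_support_iff.1 hv)
    have h9 : (Finsupp.weight (1 : ι → ℕ)) v = v.degree :=
      (congrFun (congrArg DFunLike.coe (Finsupp.degree_eq_weight_one (σ := ι) (R := ℕ))) v).symm
    rw [← h9]
    exact this
  constructor
  · rw [e]
    refine Polynomial.natDegree_sum_le_of_forall_le _ _ fun v hv => ?_
    exact (lineP_monomial_top v _ y lam m (hd v hv)).1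
  · rw [e, Polynomial.finsetSum_coeff]
    conv_rhs => rw [f.as_sum, map_sum]
    exact Finset.sum_congr rfl fun v hv => (lineP_monomial_top v _ y lam m (hd v hv)).2

/-- Divided differences of a homogeneous polynomial along a line. -/
theorem dd [DecidableEq ι] {κ : Type*} [DecidableEq κ] (Z : Finset κ) (d : ℕ)
    (hZ : Z.card = d + 1) (f : MvPolynomial ι ℝ) (m : ℕ) (hf : f.IsHomogeneous m) (hm : m ≤ d)
    (y lam : ι → ℝ) (s : κ → ℝ) (hs : Set.InjOn s Z) :
    ∑ j ∈ Z, MvPolynomial.eval (fun i => y i + s j * lam i) f / ∏ i ∈ Z.erase j, (s j - s i) =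
      if m = d then MvPolynomial.eval lam f else 0 := by
  obtain ⟨h1, h2⟩ := lineP_top f y lam m hf
  have hdeg : (lineP f y lam).degree < (Z.card : ℕ) := by
    rw [hZ]
    refine lt_of_le_of_lt Polynomial.degree_le_natDegree ?_
    exact_mod_cast Nat.lt_succ_of_le (h1.trans hm)
  have h3 := Lagrange.coeff_eq_sum hs hdeg
  simp only [eval_lineP] at h3
  rw [← h3, hZ, Nat.add_sub_cancel]
  split_ifs with h
  · rw [← h, h2]
  · apply Polynomial.coeff_eq_zero_of_natDegree_lt
    omega

/-- The sum over the facets of a circuit. -/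
theorem circ [DecidableEq ι] (Z : Finset ι) (d : ℕ) (hZ : Z.card = d + 1)
    (f : MvPolynomial ι ℝ) (m : ℕ) (hf : f.IsHomogeneous m) (hm : m ≤ d)
    (y lam : ι → ℝ) (hl : ∀ i ∈ Z, lam i ≠ 0) (D : ℝ)
    (hg : ∀ j ∈ Z, ∀ i ∈ Z.erase j, y i + -y j / lam j * lam i ≠ 0) :
    ∑ j ∈ Z, (SignType.sign (lam j) : ℝ) *
        (MvPolynomial.eval (fun i => y i + -y j / lam j * lam i) f /
          (D * |lam j| * ∏ i ∈ Z.erase j, (y i + -y j / lam j * lam i))) =
      if m = d then MvPolynomial.eval lam f / (D * ∏ i ∈ Z, lam i) else 0 := by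
  set s : ι → ℝ := fun j => -y j / lam j with hs
  have hy : ∀ i ∈ Z, y i = -(s i) * lam i := by
    intro i hi
    simp only [hs]
    field_simp [hl i hi]
  have hgs : ∀ j ∈ Z, ∀ i ∈ Z, y i + s j * lam i = lam i * (s j - s i) := by
    intro j _ i hi
    rw [hy i hi]
    ring
  have hinj : Set.InjOn s Z := by
    intro j hj i hi hji
    by_contra hne
    have hi' : i ∈ Z.erase j := Finset.mem_erase.2 ⟨fun h => hne h.symm, hi⟩
    apply hg j hj i hi'
    have := hgs j hj i hi
    simp only [hs] at this hji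
    rw [this, hji, sub_self, mul_zero]
  have h := dd Z d hZ f m hf hm y lam s hinj
  have hterm : ∀ j ∈ Z, (SignType.sign (lam j) : ℝ) *
        (MvPolynomial.eval (fun i => y i + s j * lam i) f /
          (D * |lam j| * ∏ i ∈ Z.erase j, (y i + s j * lam i))) =
      (MvPolynomial.eval (fun i => y i + s j * lam i) f / ∏ i ∈ Z.erase j, (s j - s i)) *
        (D * ∏ i ∈ Z, lam i)⁻¹ := by
    intro j hj
    have e1 : ∏ i ∈ Z.erase j, (y i + s j * lam i) =
        (∏ i ∈ Z.erase j, lam i) * ∏ i ∈ Z.erase j, (s j - s i) := by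
      rw [← Finset.prod_mul_distrib]
      exact Finset.prod_congr rfl fun i hi => hgs j hj i (Finset.mem_of_mem_erase hi)
    have e2 : ∏ i ∈ Z, lam i = lam j * ∏ i ∈ Z.erase j, lam i :=
      (Finset.mul_prod_erase Z lam hj).symm
    have hlj : lam j ≠ 0 := hl j hj
    have e3 : (SignType.sign (lam j) : ℝ) * |lam j| = lam j := sign_mul_abs (lam j)
    have e4 : (SignType.sign (lam j) : ℝ) = lam j / |lam j| := by
      rw [eq_div_iff (abs_ne_zero.2 hlj)]
      exact e3
    have e5 : |lam j| * |lam j| = lam j * lam j := abs_mul_abs_self _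
    rw [e1, e2, e4]
    have hab : |lam j| ≠ 0 := abs_ne_zero.2 hlj
    rw [div_mul_div_comm]
    have e6 : |lam j| * (D * |lam j| * ((∏ i ∈ Z.erase j, lam i) *
        ∏ i ∈ Z.erase j, (s j - s i))) = (lam j * lam j) *
        (D * ((∏ i ∈ Z.erase j, lam i) * ∏ i ∈ Z.erase j, (s j - s i))) := by
      rw [← e5]
      ring
    rw [e6]
    have e7 : lam j * (lam j)⁻¹ = 1 := mul_inv_cancel₀ hlj
    simp only [div_eq_mul_inv, mul_inv]
    linear_combination ((MvPolynomial.eval fun i => y i + s j * lam i) f * (lam j)⁻¹ * D⁻¹ *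
      (∏ i ∈ Z.erase j, lam i)⁻¹ * (∏ i ∈ Z.erase j, (s j - s i))⁻¹) * e7
  rw [Finset.sum_congr rfl hterm, ← Finset.sum_mul, h]
  split_ifs
  · rw [div_eq_mul_inv]
  · rw [zero_mul]

end Pool.Agent.Helper14.HR
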