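import Pool.Agent.Helper14.HR.LA2

/-!
# Positive index of inertia of symmetric bilinear forms
-/

set_option autoImplicit false

open Filter Topology Module QuadraticMap

namespace Pool.Agent.Helper14.HR

variable {V : Type*} [AddCommGroup V] [Module ℝ V]
variable {U : Type*} [AddCommGroup U] [Module ℝ U]

/-- The maximal dimension of a subspace on which `B` is positive definite. -/
noncomputable def ip (B : LinearMap.BilinForm ℝ V) : ℕ :=
  sSup {m : ℕ | ∃ W : Submodule ℝ V, finrank ℝ W = m ∧ ∀ w ∈ W, w ≠ 0 → 0 < B w w}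

/-- The quadratic form of `B`. -/
noncomputable def qf (B : LinearMap.BilinForm ℝ V) : QuadraticForm ℝ V :=
  LinearMap.BilinMap.toQuadraticMap B

theorem qf_apply (B : LinearMap.BilinForm ℝ V) (x : V) : qf B x = B x x := rfl

theorem qf_neg (B : LinearMap.BilinForm ℝ V) : qf (-B) = - qf B := by
  ext x
  simp [qf_apply]

theorem polar_qf (B : LinearMap.BilinForm ℝ V) (hs : ∀ x y, B x y = B y x) (x y : V) :
    polar (qf B) x y = 2 * B x y := by
  unfold polar
  simp only [qf_apply, map_add, LinearMap.add_apply]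
  rw [hs y x]
  ring

theorem ip_eq [Module.Finite ℝ V] (B : LinearMap.BilinForm ℝ V) : ip B = sigPos (qf B) := by
  unfold ip
  apply IsGreatest.csSup_eq
  constructor
  · obtain ⟨W, hW, hp⟩ := exists_sigPos (qf B)
    exact ⟨W, hW, fun w hw h0 => hp w hw h0⟩
  · rintro m ⟨W, rfl, hp⟩
    exact le_sigPos (qf B) W fun w hw h0 => hp w hw h0

theorem ip_neg_eq [Module.Finite ℝ V] (B : LinearMap.BilinForm ℝ V) :
    ip (-B) = sigNeg (qf B) := by
  rw [ip_eq, qf_neg, sigPos_neg]

theorem mem_radical_qf (B : LinearMap.BilinForm ℝ V) (hs : ∀ x y, B x y = B y x) (x : V) :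
    x ∈ (qf B).radical ↔ ∀ y, B x y = 0 := by
  rw [mem_radical_iff_polar]
  simp only [polar_qf B hs]
  constructor
  · intro h y
    have := h y
    linarith
  · intro h y
    rw [h y, mul_zero]

theorem finrank_radical_qf [Module.Finite ℝ V] (B : LinearMap.BilinForm ℝ V)
    (hs : ∀ x y, B x y = B y x) :
    finrank ℝ (LinearMap.range B) + finrank ℝ (qf B).radical = finrank ℝ V := by
  have h : (qf B).radical = LinearMap.ker B := by
    ext x
    rw [mem_radical_qf B hs, LinearMap.mem_ker]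
    constructor
    · intro h
      ext y
      simpa using h y
    · intro h y
      rw [h]
      rfl
  rw [h]
  exact LinearMap.finrank_range_add_finrank_ker B

/-- LA1 -/
theorem la1 [Module.Finite ℝ V] (B : LinearMap.BilinForm ℝ V) (hs : ∀ x y, B x y = B y x) :
    ip B + ip (-B) = finrank ℝ (LinearMap.range B) := by
  have h1 := finrank_radical_qf B hs
  have h2 := QuadraticForm.sigPos_add_sigNeg_add_radical (Q := qf B)
  rw [ip_eq, ip_neg_eq]
  omega

/-- LA3, general filter form -/
theorem la3_filter [Module.Finite ℝ V] {X : Type*} (l : Filter X)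
    (B : X → LinearMap.BilinForm ℝ V) (B₀ : LinearMap.BilinForm ℝ V)
    (hc : ∀ x, Tendsto (fun t => B t x x) l (𝓝 (B₀ x x))) :
    ∀ᶠ t in l, ip B₀ ≤ ip (B t) ∧ ip (-B₀) ≤ ip (-B t) := by
  have h1 := sigPos_lsc l (fun t => qf (B t)) (qf B₀) (fun v => hc v)
  have h2 := sigNeg_lsc l (fun t => qf (B t)) (qf B₀) (fun v => hc v)
  filter_upwards [h1, h2] with t ht1 ht2
  rw [ip_eq, ip_eq, ip_neg_eq, ip_neg_eq]
  exact ⟨ht1, ht2⟩

/-- LA3 -/
theorem la3 [Module.Finite ℝ V] (B : ℝ → LinearMap.BilinForm ℝ V) (t₀ : ℝ)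
    (hc : ∀ x y, ContinuousAt (fun t => B t x y) t₀) :
    ∃ d : ℝ, 0 < d ∧ ∀ t, |t - t₀| < d → ip (B t₀) ≤ ip (B t) ∧ ip (-B t₀) ≤ ip (-B t) := by
  have h := la3_filter (𝓝 t₀) B (B t₀) (fun x => hc x x)
  rw [Metric.eventually_nhds_iff] at h
  obtain ⟨d, hd, h⟩ := h
  exact ⟨d, hd, fun t ht => h (by rwa [Real.dist_eq])⟩

/-- Near a point where the rank is maximal the indices are constant. -/
theorem la3' [Module.Finite ℝ V] (B : ℝ → LinearMap.BilinForm ℝ V) (t₀ : ℝ)
    (hs : ∀ t x y, B t x y = B t y x) (hc : ∀ x y, ContinuousAt (fun t => B t x y) t₀)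
    (hr : ∀ t, finrank ℝ (LinearMap.range (B t)) ≤ finrank ℝ (LinearMap.range (B t₀))) :
    ∃ d : ℝ, 0 < d ∧ ∀ t, |t - t₀| < d → ip (B t₀) = ip (B t) ∧ ip (-B t₀) = ip (-B t) ∧
      finrank ℝ (LinearMap.range (B t)) = finrank ℝ (LinearMap.range (B t₀)) := by
  obtain ⟨d, hd, h⟩ := la3 B t₀ hc
  refine ⟨d, hd, fun t ht => ?_⟩
  obtain ⟨h1, h2⟩ := h t ht
  have h3 := la1 (B t) (hs t)
  have h4 := la1 (B t₀) (hs t₀)
  have h5 := hr t
  omega

/-- LA2 on a preconnected set -/
theorem la2_set [Module.Finite ℝ V] {X : Type*} [TopologicalSpace X] (s : Set X)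
    (hs' : IsPreconnected s) (B : X → LinearMap.BilinForm ℝ V) (r : ℕ)
    (hs : ∀ t x y, B t x y = B t y x) (hc : ∀ x y, ContinuousOn (fun t => B t x y) s)
    (hr : ∀ t ∈ s, finrank ℝ (LinearMap.range (B t)) = r) :
    ∀ a ∈ s, ∀ b ∈ s, ip (B a) = ip (B b) ∧ ip (-B a) = ip (-B b) := by
  have h := sig_const s hs' (fun t => qf (B t)) (fun v => hc v v) (by
    intro x hx y hy
    have h1 := finrank_radical_qf (B x) (hs x)
    have h2 := finrank_radical_qf (B y) (hs y)
    rw [hr x hx] at h1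
    rw [hr y hy] at h2
    omega)
  intro a ha b hb
  rw [ip_eq, ip_eq, ip_neg_eq, ip_neg_eq]
  exact h a ha b hb

/-- LA2 -/
theorem la2 [Module.Finite ℝ V] (B : ℝ → LinearMap.BilinForm ℝ V) (r : ℕ) (a b : ℝ)
    (hab : a ≤ b) (hs : ∀ t x y, B t x y = B t y x) (hc : ∀ x y, Continuous (fun t => B t x y))
    (hr : ∀ t ∈ Set.Icc a b, finrank ℝ (LinearMap.range (B t)) = r) :
    ip (B a) = ip (B b) ∧ ip (-B a) = ip (-B b) :=
  la2_set (Set.Icc a b) isPreconnected_Icc B r hs (fun x y => (hc x y).continuousOn) hr a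
    (Set.left_mem_Icc.2 hab) b (Set.right_mem_Icc.2 hab)

/-- LA4, positive coefficient -/
theorem la4_pos [Module.Finite ℝ V] (B B' : LinearMap.BilinForm ℝ V) (u : V →ₗ[ℝ] ℝ) (e : ℝ)
    (hs : ∀ x y, B x y = B y x) (h : ∀ x y, B' x y = B x y + e * u x * u y) (he : 0 < e)
    (hr : finrank ℝ (LinearMap.range B') = finrank ℝ (LinearMap.range B) + 1) :
    ip B' = ip B + 1 ∧ ip (-B') = ip (-B) := by
  have hs' : ∀ x y, B' x y = B' y x := fun x y => by
    rw [h x y, h y x, hs x y]
    ring
  have h1 := rank_one_pos (qf B) (qf B') u e he.le fun v => by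
    rw [qf_apply, qf_apply, h v v]
    ring
  have h2 := la1 B hs
  have h3 := la1 B' hs'
  rw [ip_eq, ip_neg_eq] at h2 h3
  rw [ip_eq, ip_eq, ip_neg_eq, ip_neg_eq]
  omega

/-- LA4, negative coefficient -/
theorem la4_neg [Module.Finite ℝ V] (B B' : LinearMap.BilinForm ℝ V) (u : V →ₗ[ℝ] ℝ) (e : ℝ)
    (hs : ∀ x y, B x y = B y x) (h : ∀ x y, B' x y = B x y + e * u x * u y) (he : e < 0)
    (hr : finrank ℝ (LinearMap.range B') = finrank ℝ (LinearMap.range B) + 1) :
    ip B' = ip B ∧ ip (-B') = ip (-B) + 1 := by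
  have hs' : ∀ x y, B' x y = B' y x := fun x y => by
    rw [h x y, h y x, hs x y]
    ring
  have h1 := rank_one_neg (qf B) (qf B') u e he.le fun v => by
    rw [qf_apply, qf_apply, h v v]
    ring
  have h2 := la1 B hs
  have h3 := la1 B' hs'
  rw [ip_eq, ip_neg_eq] at h2 h3
  rw [ip_eq, ip_eq, ip_neg_eq, ip_neg_eq]
  omega

/-- The orthogonal complement of the range of `f`. -/
def perp (B : LinearMap.BilinForm ℝ V) (f : U →ₗ[ℝ] V) : Submodule ℝ V where
  carrier := {y | ∀ x, B (f x) y = 0}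
  zero_mem' := fun x => by simp
  add_mem' := fun {a b} ha hb x => by
    rw [map_add, ha x, hb x, add_zero]
  smul_mem' := fun c a ha x => by
    rw [map_smul, ha x, smul_zero]

theorem mem_perp (B : LinearMap.BilinForm ℝ V) (f : U →ₗ[ℝ] V) (y : V) :
    y ∈ perp B f ↔ ∀ x, B (f x) y = 0 := Iff.rfl

/-- Lower bound for the index of an orthogonal sum. -/
theorem ip_ge_add [Module.Finite ℝ V] [Module.Finite ℝ U] (B : LinearMap.BilinForm ℝ V)
    (B₀ : LinearMap.BilinForm ℝ U) (f : U →ₗ[ℝ] V) (hs : ∀ x y, B x y = B y x)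
    (h0 : ∀ x y, B (f x) (f y) = B₀ x y) :
    ip B₀ + ip (B.restrict (perp B f)) ≤ ip B := by
  obtain ⟨W₀, hW₀, hp₀⟩ := exists_sigPos (qf B₀)
  obtain ⟨W₁, hW₁, hp₁⟩ := exists_sigPos (qf (B.restrict (perp B f)))
  rw [ip_eq, ip_eq, ip_eq, ← hW₀, ← hW₁]
  have hinj : Function.Injective (f.domRestrict W₀) := by
    rw [← LinearMap.ker_eq_bot, LinearMap.ker_eq_bot']
    rintro ⟨v, hv⟩ h
    have h1 : f v = 0 := by simpa using h
    by_contra h2
    have h3 : v ≠ 0 := by simpa using h2
    have h4 := hp₀ v hv h3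
    rw [qf_apply, ← h0, h1] at h4
    simp at h4
  have h5 : finrank ℝ (W₀.map f) = finrank ℝ W₀ := by
    have h6 : W₀.map f = LinearMap.range (f.domRestrict W₀) := by
      rw [LinearMap.range_domRestrict]
    rw [h6]
    exact LinearMap.finrank_range_of_inj hinj
  have h6 : finrank ℝ (W₁.map (perp B f).subtype) = finrank ℝ W₁ :=
    Submodule.finrank_map_subtype_eq _ _
  have hdisj : W₀.map f ⊓ W₁.map (perp B f).subtype = ⊥ := by
    rw [eq_bot_iff]
    rintro z ⟨⟨v, hv, rfl⟩, ⟨w, hw, hwz⟩⟩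
    rw [Submodule.mem_bot]
    have hw0 : ∀ x, B (f x) w = 0 := w.2
    have h7 : (w : V) = f v := hwz
    have h8 : B (f v) (f v) = 0 := by
      have := hw0 v
      rwa [h7] at this
    by_contra hne
    have hv0 : v ≠ 0 := by
      rintro rfl
      exact hne (map_zero f)
    have := hp₀ v hv hv0
    rw [qf_apply, ← h0, h8] at this
    exact lt_irrefl _ this
  have h7 := Submodule.finrank_sup_add_finrank_inf_eq (W₀.map f) (W₁.map (perp B f).subtype)
  rw [hdisj, finrank_bot, add_zero, h5, h6] at h7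
  rw [← h7]
  refine le_sigPos (qf B) _ fun z hz hz0 => ?_
  obtain ⟨a, ha, b, hb, rfl⟩ := Submodule.mem_sup.1 hz
  obtain ⟨v, hv, rfl⟩ := ha
  obtain ⟨w, hw, rfl⟩ := hb
  have hw0 : ∀ x, B (f x) w = 0 := w.2
  have e1 : qf B (f v + (perp B f).subtype w) = qf B₀ v + qf (B.restrict (perp B f)) w := by
    simp only [qf_apply, map_add, LinearMap.add_apply, Submodule.subtype_apply, h0,
      LinearMap.BilinForm.restrict_apply, LinearMap.domRestrict_apply]
    rw [hs (w : V) (f v), hw0 v]
    ring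
  rw [e1]
  by_cases hv0 : v = 0
  · have hw1 : w ≠ 0 := by
      rintro rfl
      apply hz0
      rw [hv0]
      simp
    have := hp₁ w hw hw1
    rw [hv0, QuadraticMap.map_zero, zero_add]
    exact this
  · have h8 := hp₀ v hv hv0
    by_cases hw1 : w = 0
    · rw [hw1, QuadraticMap.map_zero, add_zero]
      exact h8
    · have := hp₁ w hw hw1
      linarith

/-- LA5: if the radical of the restriction to the range of `f` is contained in the radical, the
indices are additive. -/
theorem la5 [Module.Finite ℝ V] [Module.Finite ℝ U] (B : LinearMap.BilinForm ℝ V)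
    (B₀ : LinearMap.BilinForm ℝ U) (f : U →ₗ[ℝ] V) (hs : ∀ x y, B x y = B y x)
    (h0 : ∀ x y, B (f x) (f y) = B₀ x y)
    (hrad : ∀ x, (∀ y, B₀ x y = 0) → ∀ z, B (f x) z = 0) :
    ip B = ip B₀ + ip (B.restrict (perp B f)) ∧
      ip (-B) = ip (-B₀) + ip (-(B.restrict (perp B f))) := by
  have hs0 : ∀ x y, B₀ x y = B₀ y x := fun x y => by rw [← h0, ← h0, hs]
  have hsW : ∀ x y, B.restrict (perp B f) x y = B.restrict (perp B f) y x := fun x y => by
    simp only [LinearMap.BilinForm.restrict_apply, LinearMap.domRestrict_apply]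
    exact hs _ _
  have hn : ∀ W : Submodule ℝ V, (-B).restrict W = -(B.restrict W) := fun W => by
    ext x y
    simp
  have hperp : perp (-B) f = perp B f := by
    ext y
    rw [mem_perp, mem_perp]
    simp
  have h1 := ip_ge_add B B₀ f hs h0
  have h2 := ip_ge_add (-B) (-B₀) f (fun x y => by simp [hs x y]) (fun x y => by simp [h0])
  rw [hperp, hn] at h2
  have h3 := la1 B hs
  have h4 := la1 B₀ hs0
  have h5 := la1 (B.restrict (perp B f)) hsW
  -- ranks
  have h6 := finrank_radical_qf B hs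
  have h7 := finrank_radical_qf B₀ hs0
  have h8 := finrank_radical_qf (B.restrict (perp B f)) hsW
  -- `range f ⊔ perp = ⊤`
  have horth : perp B f = (pb (qf B)).orthogonal (LinearMap.range f) := by
    ext y
    rw [mem_perp, LinearMap.BilinForm.mem_orthogonal_iff]
    constructor
    · rintro h _ ⟨x, rfl⟩
      rw [pb_apply, polar_qf B hs, h x, mul_zero]
    · intro h x
      have := h (f x) ⟨x, rfl⟩
      rw [pb_apply, polar_qf B hs] at this
      linarith
  have hsup : LinearMap.range f ⊔ perp B f = ⊤ := by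
    rw [horth]
    refine sup_orth (qf B) _ ?_
    rintro _ ⟨x, rfl⟩ h
    rw [mem_radical_qf B hs]
    apply hrad
    intro y
    have := h (f y) ⟨y, rfl⟩
    rw [polar_qf B hs, h0] at this
    linarith
  -- the radical of the restriction to `perp` is the radical
  have hr1 : finrank ℝ (qf (B.restrict (perp B f))).radical = finrank ℝ (qf B).radical := by
    have e1 : ((qf (B.restrict (perp B f))).radical).map (perp B f).subtype = (qf B).radical := by
      ext z
      constructor
      · rintro ⟨w, hw, rfl⟩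
        rw [SetLike.mem_coe, mem_radical_qf _ hsW] at hw
        rw [mem_radical_qf B hs]
        intro y
        have hy : y ∈ LinearMap.range f ⊔ perp B f := by
          rw [hsup]
          exact Submodule.mem_top
        obtain ⟨a, ha, b, hb, rfl⟩ := Submodule.mem_sup.1 hy
        obtain ⟨x, rfl⟩ := ha
        rw [map_add, Submodule.subtype_apply, hs (w : V) (f x), w.2 x, zero_add]
        have := hw ⟨b, hb⟩
        simpa using this
      · intro hz
        rw [mem_radical_qf B hs] at hz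
        have hzp : z ∈ perp B f := fun x => by rw [hs]; exact hz _
        refine ⟨⟨z, hzp⟩, ?_, rfl⟩
        rw [SetLike.mem_coe, mem_radical_qf _ hsW]
        intro y
        simpa using hz y
    rw [← e1]
    exact (Submodule.finrank_map_subtype_eq _ _).symm
  -- the radical of `B₀` is the preimage of the radical
  have hr2 : (qf B₀).radical = ((qf B).radical).comap f := by
    ext x
    rw [mem_radical_qf B₀ hs0, Submodule.mem_comap, mem_radical_qf B hs]
    constructor
    · exact hrad x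
    · intro h y
      rw [← h0]
      exact h _
  have h9 := Submodule.finrank_sup_add_finrank_inf_eq (LinearMap.range f) (perp B f)
  rw [hsup, finrank_top] at h9
  have h10 : LinearMap.range f ⊓ perp B f = ((qf B₀).radical).map f := by
    ext z
    constructor
    · rintro ⟨⟨x, rfl⟩, hz⟩
      refine ⟨x, ?_, rfl⟩
      rw [SetLike.mem_coe, mem_radical_qf B₀ hs0]
      intro y
      rw [← h0, hs]
      exact hz y
    · rintro ⟨x, hx, rfl⟩
      rw [SetLike.mem_coe, mem_radical_qf B₀ hs0] at hx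
      refine ⟨⟨x, rfl⟩, fun y => ?_⟩
      rw [hs]
      exact hrad x hx _
  rw [h10] at h9
  have h11 : finrank ℝ (((qf B₀).radical).map f) + finrank ℝ (LinearMap.ker f) =
      finrank ℝ (qf B₀).radical := by
    have hk : LinearMap.ker f ≤ (qf B₀).radical := by
      intro x hx
      rw [mem_radical_qf B₀ hs0]
      intro y
      rw [← h0, LinearMap.mem_ker.1 hx]
      simp
    have h12 := LinearMap.finrank_range_add_finrank_ker (f.domRestrict (qf B₀).radical)
    rw [LinearMap.range_domRestrict] at h12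
    have h13 : finrank ℝ (LinearMap.ker (f.domRestrict (qf B₀).radical)) =
        finrank ℝ (LinearMap.ker f) := by
      have e2 : (LinearMap.ker (f.domRestrict (qf B₀).radical)).map (qf B₀).radical.subtype =
          LinearMap.ker f := by
        ext z
        constructor
        · rintro ⟨w, hw, rfl⟩
          have hw2 := LinearMap.mem_ker.1 (SetLike.mem_coe.1 hw)
          rw [LinearMap.domRestrict_apply] at hw2
          rw [LinearMap.mem_ker]
          exact hw2
        · intro hz
          refine ⟨⟨z, hk hz⟩, ?_, rfl⟩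
          rw [SetLike.mem_coe, LinearMap.mem_ker, LinearMap.domRestrict_apply]
          exact LinearMap.mem_ker.1 hz
      rw [← e2]
      exact (Submodule.finrank_map_subtype_eq _ _).symm
    rw [← h13]
    exact h12
  have h14 := LinearMap.finrank_range_add_finrank_ker f
  omega

/-- From the Hodge-Riemann relations to the indices, for bilinear forms. -/
theorem ip_of_hr [Module.Finite ℝ V] [Module.Finite ℝ U] (B : LinearMap.BilinForm ℝ V)
    (B₀ : LinearMap.BilinForm ℝ U) (f : U →ₗ[ℝ] V) (c : ℝ) (hc : 0 < c)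
    (hs : ∀ x y, B x y = B y x) (hs0 : ∀ x y, B₀ x y = B₀ y x)
    (h0 : ∀ x, B (f x) (f x) = -c * B₀ x x)
    (hrad : ∀ x, (∀ y, B₀ x y = 0) → ∀ z, B (f x) z = 0)
    (hp : ∀ x, (∀ y, B x (f y) = 0) → 0 ≤ B x x) : ip (-B) = ip B₀ := by
  rw [ip_neg_eq, ip_eq]
  refine index_of_hr (qf B) (qf B₀) f c hc (fun x => h0 x) ?_ ?_
  · intro x hx
    rw [mem_radical_qf B₀ hs0] at hx
    rw [mem_radical_qf B hs]
    exact hrad x hx
  · intro x hx
    apply hp
    intro y
    have := hx y
    rw [polar_qf B hs] at this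
    linarith

/-- From the indices to the Hodge-Riemann relations, for bilinear forms. -/
theorem hr_of_ip [Module.Finite ℝ V] [Module.Finite ℝ U] (B : LinearMap.BilinForm ℝ V)
    (B₀ : LinearMap.BilinForm ℝ U) (f : U →ₗ[ℝ] V) (c : ℝ) (hc : 0 < c)
    (hs : ∀ x y, B x y = B y x) (hs0 : ∀ x y, B₀ x y = B₀ y x)
    (h0 : ∀ x, B (f x) (f x) = -c * B₀ x x)
    (hrad : ∀ x, (∀ y, B₀ x y = 0) → ∀ z, B (f x) z = 0)
    (hi : ip (-B) ≤ ip B₀) :
    ∀ x, (∀ y, B x (f y) = 0) → 0 ≤ B x x ∧ (B x x = 0 → ∀ z, B x z = 0) := by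
  rw [ip_neg_eq, ip_eq] at hi
  intro x hx
  have h := hr_of_index (qf B) (qf B₀) f c hc (fun x => h0 x) (by
    intro x hx
    rw [mem_radical_qf B₀ hs0] at hx
    rw [mem_radical_qf B hs]
    exact hrad x hx) hi x (by
    intro y
    rw [polar_qf B hs, hx y, mul_zero])
  refine ⟨h.1, fun h1 => ?_⟩
  have := h.2 h1
  rwa [mem_radical_qf B hs] at this

end Pool.Agent.Helper14.HR
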