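import Mathlib

/-!
# Index of real quadratic forms: monotonicity, semicontinuity, rank one changes

Linear algebra for the Hodge-Riemann relations. All forms are `QuadraticForm ℝ E` with `E`
finite-dimensional; `sigPos`, `sigNeg`, `radical` are those of Mathlib.
-/

set_option autoImplicit false

open Filter Topology Module QuadraticMap

namespace Pool.Agent.Helper14.HR

variable {E : Type*} [AddCommGroup E] [Module ℝ E] [FiniteDimensional ℝ E]

/-- A subspace on which the form is positive. -/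
theorem le_sigPos (Q : QuadraticForm ℝ E) (V : Submodule ℝ E)
    (h : ∀ v ∈ V, v ≠ 0 → 0 < Q v) : finrank ℝ V ≤ sigPos Q := by
  apply le_sigPos_of_posDef
  intro x hx
  rw [restrict_apply]
  exact h x x.2 (by simpa using hx)

theorem exists_sigPos (Q : QuadraticForm ℝ E) :
    ∃ V : Submodule ℝ E, finrank ℝ V = sigPos Q ∧ ∀ v ∈ V, v ≠ 0 → 0 < Q v := by
  obtain ⟨V, hV, hp⟩ := exists_finrank_eq_sigPos_and_posDef Q
  refine ⟨V, hV, fun v hv h0 => ?_⟩
  have := hp ⟨v, hv⟩ (by simpa using h0)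
  simpa [restrict_apply] using this

/-- Monotonicity. -/
theorem sigPos_mono (Q Q' : QuadraticForm ℝ E) (h : ∀ v, Q v ≤ Q' v) : sigPos Q ≤ sigPos Q' := by
  obtain ⟨V, hV, hp⟩ := exists_sigPos Q
  rw [← hV]
  exact le_sigPos Q' V fun v hv h0 => (hp v hv h0).trans_le (h v)

theorem sigNeg_anti (Q Q' : QuadraticForm ℝ E) (h : ∀ v, Q v ≤ Q' v) : sigNeg Q' ≤ sigNeg Q := by
  rw [← sigPos_neg, ← sigPos_neg]
  exact sigPos_mono _ _ fun v => by
    simp only [neg_apply]
    exact neg_le_neg (h v)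

/-- A bound for the index if the forms agree on the kernel of a functional. -/
theorem sigPos_le_succ (Q Q' : QuadraticForm ℝ E) (φ : E →ₗ[ℝ] ℝ)
    (h : ∀ v, φ v = 0 → Q' v ≤ Q v) : sigPos Q' ≤ sigPos Q + 1 := by
  obtain ⟨V, hV, hp⟩ := exists_sigPos Q'
  rw [← hV]
  have h1 : finrank ℝ (V ⊓ LinearMap.ker φ : Submodule ℝ E) ≤ sigPos Q :=
    le_sigPos Q _ fun v hv h0 => (hp v hv.1 h0).trans_le (h v hv.2)
  have h2 := Submodule.finrank_sup_add_finrank_inf_eq V (LinearMap.ker φ)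
  have h3 : finrank ℝ (V ⊔ LinearMap.ker φ : Submodule ℝ E) ≤ finrank ℝ E :=
    Submodule.finrank_le _
  have h4 := LinearMap.finrank_range_add_finrank_ker φ
  have h5 : finrank ℝ (LinearMap.range φ) ≤ 1 := by
    have := Submodule.finrank_le (LinearMap.range φ)
    simpa using this
  omega

/-- Rank one changes with a nonnegative coefficient. -/
theorem rank_one_pos (Q Q' : QuadraticForm ℝ E) (φ : E →ₗ[ℝ] ℝ) (ε : ℝ) (hε : 0 ≤ ε)
    (h : ∀ v, Q' v = Q v + ε * φ v ^ 2) :
    sigPos Q ≤ sigPos Q' ∧ sigPos Q' ≤ sigPos Q + 1 ∧ sigNeg Q' ≤ sigNeg Q ∧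
      sigNeg Q ≤ sigNeg Q' + 1 := by
  have hle : ∀ v, Q v ≤ Q' v := fun v => by
    rw [h v]
    have : 0 ≤ ε * φ v ^ 2 := by positivity
    linarith
  have heq : ∀ v, φ v = 0 → Q' v = Q v := fun v hv => by rw [h v, hv]; simp
  refine ⟨sigPos_mono _ _ hle, sigPos_le_succ Q Q' φ fun v hv => (heq v hv).le,
    sigNeg_anti _ _ hle, ?_⟩
  rw [← sigPos_neg, ← sigPos_neg]
  exact sigPos_le_succ (-Q') (-Q) φ fun v hv => by
    simp only [neg_apply]
    rw [heq v hv]

/-- Rank one changes with a nonpositive coefficient. -/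
theorem rank_one_neg (Q Q' : QuadraticForm ℝ E) (φ : E →ₗ[ℝ] ℝ) (ε : ℝ) (hε : ε ≤ 0)
    (h : ∀ v, Q' v = Q v + ε * φ v ^ 2) :
    sigNeg Q ≤ sigNeg Q' ∧ sigNeg Q' ≤ sigNeg Q + 1 ∧ sigPos Q' ≤ sigPos Q ∧
      sigPos Q ≤ sigPos Q' + 1 := by
  have := rank_one_pos Q' Q φ (-ε) (by linarith) fun v => by rw [h v]; ring
  tauto

/-- Lower semicontinuity of the index. -/
theorem sigPos_lsc {X : Type*} (l : Filter X) (Q : X → QuadraticForm ℝ E)
    (Q₀ : QuadraticForm ℝ E) (hc : ∀ v, Tendsto (fun x => Q x v) l (𝓝 (Q₀ v))) :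
    ∀ᶠ x in l, sigPos Q₀ ≤ sigPos (Q x) := by
  obtain ⟨V, hV, hp⟩ := exists_sigPos Q₀
  let b := finBasis ℝ V
  set r : ℕ := finrank ℝ V with hr
  -- the polynomial of the coordinates
  let P : QuadraticForm ℝ E → (Fin r → ℝ) → ℝ := fun q c =>
    ∑ i, ∑ j, c i * c j * (polar q (b i : E) (b j : E) / 2)
  have hP : ∀ (q : QuadraticForm ℝ E) (c : Fin r → ℝ), q (∑ i, c i • (b i : E)) = P q c := by
    intro q c
    have h1 : q (∑ i, c i • (b i : E)) =
        polarBilin q (∑ i, c i • (b i : E)) (∑ i, c i • (b i : E)) / 2 := by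
      rw [polarBilin_apply_apply, polar_self]
      ring
    rw [h1]
    simp only [map_sum, LinearMap.sum_apply, map_smul, LinearMap.smul_apply, smul_eq_mul,
      polarBilin_apply_apply, P, Finset.sum_div, Finset.mul_sum]
    rw [Finset.sum_comm]
    refine Finset.sum_congr rfl fun i _ => Finset.sum_congr rfl fun j _ => ?_
    ring
  rcases Nat.eq_zero_or_pos r with h0 | hpos
  · refine Filter.Eventually.of_forall fun x => ?_
    rw [← hV, h0]
    exact Nat.zero_le _
  have : Nonempty (Fin r) := ⟨⟨0, hpos⟩⟩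
  -- minimum on the unit sphere
  have hsph : IsCompact (Metric.sphere (0 : Fin r → ℝ) 1) := isCompact_sphere _ _
  have hne : (Metric.sphere (0 : Fin r → ℝ) 1).Nonempty := by
    refine ⟨fun _ => 1, ?_⟩
    rw [mem_sphere_zero_iff_norm]
    simp [pi_norm_const]
  have hcont : Continuous (P Q₀) := by
    simp only [P]
    fun_prop
  obtain ⟨c₀, hc₀, hmin⟩ := hsph.exists_isMinOn hne hcont.continuousOn
  have hli : ∀ c : Fin r → ℝ, c ≠ 0 → (∑ i, c i • (b i : E)) ≠ 0 := by
    intro c hcn h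
    apply hcn
    have h2 : ∑ i, c i • b i = 0 := by
      apply Subtype.ext
      simpa using h
    have := Fintype.linearIndependent_iff.1 b.linearIndependent c h2
    funext i
    exact this i
  have hmem : ∀ c : Fin r → ℝ, (∑ i, c i • (b i : E)) ∈ V := fun c =>
    Submodule.sum_mem _ fun i _ => V.smul_mem _ (b i).2
  set m : ℝ := P Q₀ c₀ with hm
  have hmpos : 0 < m := by
    rw [hm, ← hP]
    have hc0 : c₀ ≠ 0 := by
      intro h
      rw [mem_sphere_zero_iff_norm, h, norm_zero] at hc₀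
      norm_num at hc₀
    exact hp _ (hmem _) (hli _ hc0)
  -- convergence of the Gram matrix
  have hG : Tendsto (fun x => ∑ i : Fin r, ∑ j : Fin r,
      |polar (Q x) (b i : E) (b j : E) / 2 - polar Q₀ (b i : E) (b j : E) / 2|) l (𝓝 0) := by
    have : (0 : ℝ) = ∑ i : Fin r, ∑ j : Fin r,
      |polar Q₀ (b i : E) (b j : E) / 2 - polar Q₀ (b i : E) (b j : E) / 2| := by simp
    rw [this]
    refine tendsto_finsetSum _ fun i _ => tendsto_finsetSum _ fun j _ => ?_
    refine Tendsto.abs (Tendsto.sub (Tendsto.div_const ?_ _) tendsto_const_nhds)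
    unfold polar
    exact ((hc _).sub (hc _)).sub (hc _)
  have hev := hG.eventually (gt_mem_nhds hmpos)
  filter_upwards [hev] with x hx
  rw [← hV]
  refine le_sigPos (Q x) V fun v hv hv0 => ?_
  -- coordinates of v
  obtain ⟨c, hcv⟩ : ∃ c : Fin r → ℝ, v = ∑ i, c i • (b i : E) := by
    refine ⟨fun i => b.repr ⟨v, hv⟩ i, ?_⟩
    have h7 : ∑ i, b.repr ⟨v, hv⟩ i • b i = (⟨v, hv⟩ : V) := b.sum_repr ⟨v, hv⟩
    have h8 : ((∑ i, b.repr ⟨v, hv⟩ i • b i : V) : E) = v := by rw [h7]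
    refine h8.symm.trans ?_
    rw [Submodule.coe_sum]
    rfl
  have hcn : c ≠ 0 := by
    rintro rfl
    apply hv0
    simpa using hcv
  have hnorm : 0 < ‖c‖ := norm_pos_iff.2 hcn
  rw [hcv, hP]
  -- scaling
  set e : Fin r → ℝ := fun i => c i / ‖c‖ with he
  have hes : e ∈ Metric.sphere (0 : Fin r → ℝ) 1 := by
    rw [mem_sphere_zero_iff_norm]
    have : e = ‖c‖⁻¹ • c := by
      funext i
      simp [he, div_eq_inv_mul]
    rw [this, norm_smul, norm_inv, norm_norm, inv_mul_cancel₀ hnorm.ne']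
  have hee : ∀ i, |e i| ≤ 1 := by
    intro i
    have := norm_le_pi_norm e i
    rw [mem_sphere_zero_iff_norm.1 hes] at this
    simpa using this
  have hscale : P (Q x) c = ‖c‖ ^ 2 * P (Q x) e := by
    simp only [P, he, Finset.mul_sum]
    refine Finset.sum_congr rfl fun i _ => Finset.sum_congr rfl fun j _ => ?_
    field_simp
  rw [hscale]
  apply mul_pos (by positivity)
  have h1 : m ≤ P Q₀ e := hmin hes
  have h2 : |P (Q x) e - P Q₀ e| ≤ ∑ i : Fin r, ∑ j : Fin r,
      |polar (Q x) (b i : E) (b j : E) / 2 - polar Q₀ (b i : E) (b j : E) / 2| := by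
    simp only [P]
    rw [← Finset.sum_sub_distrib]
    refine (Finset.abs_sum_le_sum_abs _ _).trans (Finset.sum_le_sum fun i _ => ?_)
    rw [← Finset.sum_sub_distrib]
    refine (Finset.abs_sum_le_sum_abs _ _).trans (Finset.sum_le_sum fun j _ => ?_)
    rw [← mul_sub, abs_mul, abs_mul]
    have h3 : |e i| * |e j| ≤ 1 := by
      calc |e i| * |e j| ≤ 1 * 1 := mul_le_mul (hee i) (hee j) (abs_nonneg _) zero_le_one
        _ = 1 := one_mul 1
    exact mul_le_of_le_one_left (abs_nonneg _) h3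
  have h3 := abs_le.1 (h2.trans hx.le)
  have h4 := (abs_sub_lt_iff.1 (lt_of_le_of_lt h2 hx)).2
  linarith

theorem sigNeg_lsc {X : Type*} (l : Filter X) (Q : X → QuadraticForm ℝ E)
    (Q₀ : QuadraticForm ℝ E) (hc : ∀ v, Tendsto (fun x => Q x v) l (𝓝 (Q₀ v))) :
    ∀ᶠ x in l, sigNeg Q₀ ≤ sigNeg (Q x) := by
  have := sigPos_lsc l (fun x => - Q x) (- Q₀) fun v => by
    simpa using (hc v).neg
  simpa [sigPos_neg] using this

/-- If the radical of the limit is not larger, the indices near the limit are those of the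
limit. -/
theorem sig_eventually_eq {X : Type*} (l : Filter X) (Q : X → QuadraticForm ℝ E)
    (Q₀ : QuadraticForm ℝ E) (hc : ∀ v, Tendsto (fun x => Q x v) l (𝓝 (Q₀ v)))
    (hr : ∀ᶠ x in l, finrank ℝ Q₀.radical ≤ finrank ℝ (Q x).radical) :
    ∀ᶠ x in l, sigPos (Q x) = sigPos Q₀ ∧ sigNeg (Q x) = sigNeg Q₀ ∧
      finrank ℝ (Q x).radical = finrank ℝ Q₀.radical := by
  filter_upwards [sigPos_lsc l Q Q₀ hc, sigNeg_lsc l Q Q₀ hc, hr] with x h1 h2 h3
  have h4 := QuadraticForm.sigPos_add_sigNeg_add_radical (Q := Q₀)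
  have h5 := QuadraticForm.sigPos_add_sigNeg_add_radical (Q := Q x)
  omega

/-- The indices are constant on a preconnected set if the dimension of the radical is. -/
theorem sig_const {X : Type*} [TopologicalSpace X] (s : Set X) (hs : IsPreconnected s)
    (Q : X → QuadraticForm ℝ E) (hc : ∀ v, ContinuousOn (fun x => Q x v) s)
    (hr : ∀ x ∈ s, ∀ y ∈ s, finrank ℝ (Q x).radical = finrank ℝ (Q y).radical) :
    ∀ x ∈ s, ∀ y ∈ s, sigPos (Q x) = sigPos (Q y) ∧ sigNeg (Q x) = sigNeg (Q y) := by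
  have key : ∀ x ∈ s, ∀ᶠ y in 𝓝[s] x, sigPos (Q y) = sigPos (Q x) ∧
      sigNeg (Q y) = sigNeg (Q x) := by
    intro x hx
    have h1 := sig_eventually_eq (𝓝[s] x) Q (Q x) (fun v => (hc v x hx))
      (by
        filter_upwards [self_mem_nhdsWithin] with y hy
        exact (hr x hx y hy).le)
    filter_upwards [h1] with y hy
    exact ⟨hy.1, hy.2.1⟩
  have h1 : ContinuousOn (fun x => sigPos (Q x)) s := by
    intro x hx
    have : (fun y => sigPos (Q y)) =ᶠ[𝓝[s] x] fun _ => sigPos (Q x) := by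
      filter_upwards [key x hx] with y hy
      exact hy.1
    exact (continuousWithinAt_const).congr_of_eventuallyEq this rfl
  have h2 : ContinuousOn (fun x => sigNeg (Q x)) s := by
    intro x hx
    have : (fun y => sigNeg (Q y)) =ᶠ[𝓝[s] x] fun _ => sigNeg (Q x) := by
      filter_upwards [key x hx] with y hy
      exact hy.2
    exact (continuousWithinAt_const).congr_of_eventuallyEq this rfl
  intro x hx y hy
  exact ⟨hs.constant h1 hx hy, hs.constant h2 hx hy⟩

end Pool.Agent.Helper14.HR
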