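import Pool.Agent.Helper14.HR.LA

/-!
# Primitive subspaces and indices
-/

set_option autoImplicit false

open Filter Topology Module QuadraticMap

namespace Pool.Agent.Helper14.HR

variable {E : Type*} [AddCommGroup E] [Module ℝ E]
variable {E' : Type*} [AddCommGroup E'] [Module ℝ E']

/-- The polar form as a bilinear form. -/
noncomputable def pb (Q : QuadraticForm ℝ E) : LinearMap.BilinForm ℝ E := polarBilin Q

theorem pb_apply (Q : QuadraticForm ℝ E) (x y : E) : pb Q x y = polar Q x y := rfl

theorem polar_self' (Q : QuadraticForm ℝ E) (x : E) : polar Q x x = 2 * Q x := by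
  rw [polar_self]
  simp

theorem mem_radical_iff_polar (Q : QuadraticForm ℝ E) (x : E) :
    x ∈ Q.radical ↔ ∀ y, polar Q x y = 0 := by
  have : Invertible (2 : ℝ) := invertibleOfNonzero two_ne_zero
  rw [radical_eq_ker_polarBilin, LinearMap.mem_ker]
  constructor
  · intro h y
    have := congrArg (fun g => g y) h
    simpa using this
  · intro h
    ext y
    simpa using h y

/-- If the radical of the restriction to `W` is contained in the radical, `W` and its orthogonal
complement span the space. -/
theorem sup_orth [FiniteDimensional ℝ E] (Q : QuadraticForm ℝ E) (W : Submodule ℝ E)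
    (h : ∀ x ∈ W, (∀ y ∈ W, polar Q x y = 0) → x ∈ Q.radical) :
    W ⊔ (pb Q).orthogonal W = ⊤ := by
  apply Submodule.eq_top_of_finrank_eq
  apply le_antisymm (Submodule.finrank_le _)
  have h1 := Submodule.finrank_sup_add_finrank_inf_eq W ((pb Q).orthogonal W)
  have h2 := LinearMap.BilinForm.finrank_add_finrank_orthogonal' (B := pb Q) W
  have h3 : W ⊓ (pb Q).orthogonal W ≤ W ⊓ (pb Q).ker := by
    rintro x ⟨hx, hx2⟩
    refine ⟨hx, ?_⟩
    rw [SetLike.mem_coe, LinearMap.BilinForm.mem_orthogonal_iff] at hx2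
    have h4 : x ∈ Q.radical := h x hx fun y hy => by
      have := hx2 y hy
      rw [pb_apply, polar_comm] at this
      exact this
    exact radical_le_ker_polarBilin h4
  have h4 := Submodule.finrank_mono h3
  omega

theorem map_add_orth (Q : QuadraticForm ℝ E) (x y : E) (h : polar Q x y = 0) :
    Q (x + y) = Q x + Q y := by
  rw [QuadraticMap.map_add Q, h, add_zero]

/-- A maximal positive subspace and a nonpositive complement. -/
theorem exists_split [FiniteDimensional ℝ E] (Q : QuadraticForm ℝ E) : ∃ Vp Vn : Submodule ℝ E, Vp ⊔ Vn = ⊤ ∧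
    finrank ℝ Vp = sigPos Q ∧ (∀ v ∈ Vp, v ≠ 0 → 0 < Q v) ∧ ∀ v ∈ Vn, Q v ≤ 0 := by
  obtain ⟨V, hV, hp⟩ := exists_sigPos Q
  refine ⟨V, (pb Q).orthogonal V, ?_, hV, hp, ?_⟩
  · refine sup_orth Q V fun x hx h => ?_
    have h1 := h x hx
    rw [polar_self'] at h1
    have h2 : Q x = 0 := by linarith
    have h3 : x = 0 := by
      by_contra h0
      exact (hp x hx h0).ne' h2
    rw [h3]
    exact Submodule.zero_mem _
  · intro x hx
    by_contra hneg
    have hx0 : 0 < Q x := not_le.1 hneg
    rw [LinearMap.BilinForm.mem_orthogonal_iff] at hx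
    have hort : ∀ v ∈ V, ∀ a : ℝ, Q (v + a • x) = Q v + a ^ 2 * Q x := by
      intro v hv a
      rw [map_add_orth, QuadraticMap.map_smul, smul_eq_mul]
      · ring
      · have := hx v hv
        rw [pb_apply] at this
        rw [polar_smul_right, this, smul_zero]
    have hxV : x ∉ V := by
      intro hxV
      have := hx x hxV
      rw [pb_apply, polar_self'] at this
      linarith
    have h1 : finrank ℝ (V ⊔ Submodule.span ℝ {x} : Submodule ℝ E) ≤ sigPos Q := by
      refine le_sigPos Q _ fun z hz hz0 => ?_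
      obtain ⟨v, hv, w, hw, rfl⟩ := Submodule.mem_sup.1 hz
      obtain ⟨a, rfl⟩ := Submodule.mem_span_singleton.1 hw
      rw [hort v hv a]
      by_cases hv0 : v = 0
      · have ha : a ≠ 0 := by
          rintro rfl
          apply hz0
          rw [hv0, zero_smul, add_zero]
        rw [hv0, QuadraticMap.map_zero, zero_add]
        positivity
      · have h2 := hp v hv hv0
        have h3 : 0 ≤ a ^ 2 * Q x := by positivity
        linarith
    have h2 : V < V ⊔ Submodule.span ℝ {x} := by
      refine lt_of_le_of_ne le_sup_left fun h => hxV ?_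
      rw [h]
      exact Submodule.mem_sup_right (Submodule.mem_span_singleton_self x)
    have h3 := Submodule.finrank_lt_finrank_of_lt h2
    omega

section prim

variable (Q : QuadraticForm ℝ E) (Q' : QuadraticForm ℝ E') (f : E' →ₗ[ℝ] E) (c : ℝ)

theorem polar_f (hf : ∀ x, Q (f x) = -c * Q' x) (x y : E') :
    polar Q (f x) (f y) = -c * polar Q' x y := by
  unfold polar
  rw [← map_add, hf, hf, hf]
  ring

/-- The range and the primitive subspace span. -/
theorem range_sup_prim [FiniteDimensional ℝ E] (hc : 0 < c) (hf : ∀ x, Q (f x) = -c * Q' x)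
    (hr : ∀ x ∈ Q'.radical, f x ∈ Q.radical) :
    LinearMap.range f ⊔ (pb Q).orthogonal (LinearMap.range f) = ⊤ := by
  refine sup_orth Q _ ?_
  rintro _ ⟨x, rfl⟩ h
  apply hr
  rw [mem_radical_iff_polar]
  intro y
  have := h (f y) ⟨y, rfl⟩
  rw [polar_f Q Q' f c hf] at this
  rcases mul_eq_zero.1 this with h1 | h1
  · linarith
  · exact h1

theorem mem_prim (x : E) : x ∈ (pb Q).orthogonal (LinearMap.range f) ↔
    ∀ y, polar Q x (f y) = 0 := by
  rw [LinearMap.BilinForm.mem_orthogonal_iff]
  constructor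
  · intro h y
    have := h (f y) ⟨y, rfl⟩
    rw [pb_apply, polar_comm] at this
    exact this
  · rintro h _ ⟨y, rfl⟩
    rw [pb_apply, polar_comm]
    exact h y

/-- The image of a positive subspace. -/
theorem map_pos (hc : 0 < c) (hf : ∀ x, Q (f x) = -c * Q' x) (V : Submodule ℝ E')
    (hV : ∀ v ∈ V, v ≠ 0 → 0 < Q' v) : finrank ℝ (V.map f) = finrank ℝ V ∧
      ∀ z ∈ V.map f, z ≠ 0 → Q z < 0 := by
  constructor
  · have hinj : Function.Injective (f.domRestrict V) := by
      rw [← LinearMap.ker_eq_bot, LinearMap.ker_eq_bot']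
      rintro ⟨v, hv⟩ h
      have h1 : f v = 0 := by simpa using h
      by_contra h0
      have h2 : v ≠ 0 := by simpa using h0
      have h3 := hV v hv h2
      have h4 := hf v
      rw [h1, QuadraticMap.map_zero] at h4
      nlinarith
    have h5 : V.map f = LinearMap.range (f.domRestrict V) := by
      rw [LinearMap.range_domRestrict]
    rw [h5]
    exact LinearMap.finrank_range_of_inj hinj
  · rintro _ ⟨v, hv, rfl⟩ h0
    have : v ≠ 0 := by
      rintro rfl
      apply h0
      simp
    have h1 := hV v hv this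
    rw [hf]
    nlinarith

variable [FiniteDimensional ℝ E] [FiniteDimensional ℝ E']

theorem le_sigNeg (Q : QuadraticForm ℝ E) (V : Submodule ℝ E)
    (h : ∀ v ∈ V, v ≠ 0 → Q v < 0) : finrank ℝ V ≤ sigNeg Q := by
  rw [← sigPos_neg]
  exact le_sigPos (-Q) V fun v hv h0 => by
    simp only [neg_apply]
    linarith [h v hv h0]

/-- From the Hodge-Riemann relations to the indices. -/
theorem index_of_hr (hc : 0 < c) (hf : ∀ x, Q (f x) = -c * Q' x)
    (hr : ∀ x ∈ Q'.radical, f x ∈ Q.radical)
    (hp : ∀ x, (∀ y, polar Q x (f y) = 0) → 0 ≤ Q x) : sigNeg Q = sigPos Q' := by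
  obtain ⟨Vp, Vn, hsup, hdim, hpos, hneg⟩ := exists_split Q'
  apply le_antisymm
  · have h1 := range_sup_prim Q Q' f c hc hf hr
    set W := (pb Q).orthogonal (LinearMap.range f) with hW
    have h2 : ∀ z ∈ Vn.map f ⊔ W, (-Q) z ≤ 0 := by
      intro z hz
      obtain ⟨a, ha, u, hu, rfl⟩ := Submodule.mem_sup.1 hz
      obtain ⟨v, hv, rfl⟩ := ha
      have h3 := (mem_prim Q f u).1 hu
      have h4 : Q (f v + u) = Q (f v) + Q u := map_add_orth Q _ _ (by rw [polar_comm]; exact h3 v)
      simp only [neg_apply]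
      rw [h4, hf]
      have h5 := hneg v hv
      have h6 := hp u h3
      nlinarith
    have h3 := QuadraticForm.sigPos_add_finrank_le_of_nonpos h2
    rw [sigPos_neg] at h3
    have h4 : Vp.map f ⊔ (Vn.map f ⊔ W) = ⊤ := by
      rw [← sup_assoc, ← Submodule.map_sup, hsup, Submodule.map_top]
      exact h1
    have h5 := Submodule.finrank_add_le_finrank_add_finrank (Vp.map f) (Vn.map f ⊔ W)
    rw [h4, finrank_top] at h5
    have h6 := Submodule.finrank_map_le f Vp
    omega
  · obtain ⟨h1, h2⟩ := map_pos Q Q' f c hc hf Vp hpos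
    rw [← hdim, ← h1]
    exact le_sigNeg Q _ h2

/-- From the indices to the Hodge-Riemann relations. -/
theorem hr_of_index (hc : 0 < c) (hf : ∀ x, Q (f x) = -c * Q' x)
    (hr : ∀ x ∈ Q'.radical, f x ∈ Q.radical) (hi : sigNeg Q ≤ sigPos Q') :
    ∀ x, (∀ y, polar Q x (f y) = 0) → 0 ≤ Q x ∧ (Q x = 0 → x ∈ Q.radical) := by
  obtain ⟨V, hV, hpos⟩ := exists_sigPos Q'
  obtain ⟨h1, h2⟩ := map_pos Q Q' f c hc hf V hpos
  have key : ∀ x, (∀ y, polar Q x (f y) = 0) → 0 ≤ Q x := by
    intro x hx
    by_contra hneg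
    have hx0 : Q x < 0 := not_le.1 hneg
    have hort : ∀ z ∈ V.map f, ∀ a : ℝ, Q (z + a • x) = Q z + a ^ 2 * Q x := by
      rintro _ ⟨v, hv, rfl⟩ a
      rw [map_add_orth, QuadraticMap.map_smul, smul_eq_mul]
      · ring
      · rw [polar_smul_right, polar_comm, hx v, smul_zero]
    have hxV : x ∉ V.map f := by
      rintro ⟨v, hv, rfl⟩
      have := hx v
      rw [polar_self'] at this
      linarith
    have h3 : finrank ℝ (V.map f ⊔ Submodule.span ℝ {x} : Submodule ℝ E) ≤ sigNeg Q := by
      refine le_sigNeg Q _ fun z hz hz0 => ?_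
      obtain ⟨v, hv, w, hw, rfl⟩ := Submodule.mem_sup.1 hz
      obtain ⟨a, rfl⟩ := Submodule.mem_span_singleton.1 hw
      rw [hort v hv a]
      by_cases hv0 : v = 0
      · have ha : a ≠ 0 := by
          rintro rfl
          apply hz0
          rw [hv0, zero_smul, add_zero]
        rw [hv0, QuadraticMap.map_zero, zero_add]
        have : 0 < a ^ 2 := by positivity
        nlinarith
      · have h2 := h2 v hv hv0
        have h3 : a ^ 2 * Q x ≤ 0 := mul_nonpos_of_nonneg_of_nonpos (sq_nonneg a) hx0.le
        linarith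
    have h4 : V.map f < V.map f ⊔ Submodule.span ℝ {x} := by
      refine lt_of_le_of_ne le_sup_left fun h => hxV ?_
      rw [h]
      exact Submodule.mem_sup_right (Submodule.mem_span_singleton_self x)
    have h5 := Submodule.finrank_lt_finrank_of_lt h4
    omega
  intro x hx
  refine ⟨key x hx, fun h0 => ?_⟩
  rw [mem_radical_iff_polar]
  intro y
  by_contra hne
  have hsup := range_sup_prim Q Q' f c hc hf hr
  have hy : y ∈ LinearMap.range f ⊔ (pb Q).orthogonal (LinearMap.range f) := by
    rw [hsup]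
    exact Submodule.mem_top
  obtain ⟨a, ha, u, hu, rfl⟩ := Submodule.mem_sup.1 hy
  obtain ⟨v, rfl⟩ := ha
  rw [mem_prim] at hu
  have h1 : polar Q x (f v + u) = polar Q x u := by
    rw [polar_add_right, hx v, zero_add]
  rw [h1] at hne
  set p : ℝ := polar Q x u with hp
  set b : ℝ := Q u with hb
  -- a small perturbation in the direction of `x` is negative
  have hz : ∀ s : ℝ, 0 ≤ b + s * p := by
    intro s
    have h2 : ∀ y, polar Q (u + s • x) (f y) = 0 := by
      intro y
      rw [polar_add_left, hu y, polar_smul_left, hx y, smul_zero, add_zero]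
    have h3 := key _ h2
    rw [QuadraticMap.map_add Q, QuadraticMap.map_smul, h0, smul_zero, add_zero, polar_smul_right,
      polar_comm, smul_eq_mul] at h3
    exact h3
  have h4 := hz (-(b + 1) / p)
  rw [div_mul_cancel₀ _ hne] at h4
  linarith

end prim

end Pool.Agent.Helper14.HR
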